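import Mathlib
import Pool.Agent.TWR.Defs
import Pool.Agent.TWR.Final

/-!
# Inherence with roots in different components: necessary conditions

Let `s`, `t` be vertices in different components of a finite graph `H`. If `(H, s, t)` is inherent, then
both root components are trees, one of the roots has degree at most one, if a root is isolated then the
other one lies in a component `K₂`, if a root is adjacent to a leaf then the other one has a false twin, and
the roots are not both forced (skew zero forcing). The other components of `H` are arbitrary.
-/

namespace Pool.Agent.Results.MP_4a1452_co.NecessaryConditions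

open Pool.Agent.TWR

/-- Necessary conditions for `(H, s, t)` to be inherent when `s` and `t` lie in different components. -/
theorem result {α : Type} [Finite α] (H : SimpleGraph α) (s t : α) (hst : ¬ H.Reachable s t)
    (h : Inherent H s t) :
    (∀ v, H.Reachable s v ∨ H.Reachable t v → ∀ p : H.Walk v v, ¬ p.IsCycle) ∧
    ((H.neighborSet s).ncard ≤ 1 ∨ (H.neighborSet t).ncard ≤ 1) ∧
    (H.neighborSet t = ∅ → ∃ u, H.neighborSet s = {u} ∧ H.neighborSet u = {s}) ∧
    (H.neighborSet s = ∅ → ∃ u, H.neighborSet t = {u} ∧ H.neighborSet u = {t}) ∧
    ((∃ u, H.neighborSet u = {s}) → ∃ w, w ≠ t ∧ H.neighborSet w = H.neighborSet t) ∧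
    ((∃ u, H.neighborSet u = {t}) → ∃ w, w ≠ s ∧ H.neighborSet w = H.neighborSet s) ∧
    ¬ (Forced H s ∧ Forced H t) :=
  necessary H s t hst h

end Pool.Agent.Results.MP_4a1452_co.NecessaryConditions
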